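import Pool.Agent.H62Z.R3Main

set_option autoImplicit false

namespace Pool.Agent.Results.MP_0f71ae_nt.ALowerBound

/-- For all large `N` there is a subset of `{1, ..., N}` without nontrivial three-term
progressions with at least `N * 2 ^ (-2.552 * sqrt (log₂ N))` elements. -/
theorem result : ∃ N₀ : ℕ, ∀ N : ℕ, N₀ ≤ N → ∃ A : Finset ℕ, A ⊆ Finset.Icc 1 N ∧
    (∀ a d : ℕ, 1 ≤ d → ¬ (a ∈ A ∧ a + d ∈ A ∧ a + 2 * d ∈ A)) ∧
    (N : ℝ) * (2 : ℝ) ^ (-(2.552 : ℝ) * Real.sqrt (Real.logb 2 N)) ≤ A.card := by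
  obtain ⟨N₀, h⟩ := Pool.Agent.H62Z.R3.main
  refine ⟨N₀, fun N hN => ?_⟩
  obtain ⟨t, h1, h2, h3⟩ := rothNumberNat_spec N
  refine ⟨t.image (· + 1), fun x hx => ?_, fun a d hd ⟨a1, a2, a3⟩ => ?_, ?_⟩
  · obtain ⟨y, hy, rfl⟩ := Finset.mem_image.mp hx
    have := Finset.mem_range.mp (h1 hy)
    rw [Finset.mem_Icc]; omega
  · obtain ⟨x, hx, e1⟩ := Finset.mem_image.mp a1
    obtain ⟨y, hy, e2⟩ := Finset.mem_image.mp a2
    obtain ⟨z, hz, e3⟩ := Finset.mem_image.mp a3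
    have := h3 hx hy hz (by omega)
    omega
  · rw [Finset.card_image_of_injective _ (add_left_injective 1), h2]
    exact h N hN

end Pool.Agent.Results.MP_0f71ae_nt.ALowerBound
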